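import Pool.Agent.MUG.JB

/-!
# MP_388894_al: tensor subcategories of a nondegenerate category whose Mueger centre extends the
# unit only by invertible objects satisfy FGC
-/

open CategoryTheory MonoidalCategory Limits Abelian

universe w w' v u

attribute [local instance] CategoryTheory.Abelian.hasFiniteBiproducts

namespace Pool.Agent.MUG.Kept.InvertibleExtensions

open Pool.Agent.MUG

/-- Let `Z` be a braided finite tensor category over an algebraically closed field `k` of
characteristic zero, which satisfies FGC and whose Mueger centre is trivial. Let `D` be a tensor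
subcategory of `Z` and `E = D ⊓ centralizer D`. If every simple object `V` of `E` for which there
is a non-split extension `0 ⟶ 𝟙 ⟶ U ⟶ V ⟶ 0` in `E` is invertible, then `D` satisfies FGC. -/
theorem result {k : Type*} [Field k] [IsAlgClosed k] [CharZero k] {Z : Type u} [Category.{v} Z]
    [Abelian Z] [Linear k Z] [MonoidalCategory Z] [MonoidalPreadditive Z] [MonoidalLinear k Z]
    [RigidCategory Z] [BraidedCategory Z] [HasExt.{w} Z] (hZ : IsFinite k Z)
    (hnd : ∀ X : Z, (∀ Y, Comm X Y) → ∃ n : ℕ, Nonempty (X ≅ ⨁ (fun _ : Fin n => 𝟙_ Z)))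
    (hF : FGC.{w} k Z) (D : ObjectProperty Z) [TensorSub D]
    (hD : ∀ (V U : Z) (i : 𝟙_ Z ⟶ U) (p : U ⟶ V) (w : i ≫ p = 0),
      (D ⊓ centralizer D) V → (D ⊓ centralizer D) U → Simple V →
      (ShortComplex.mk i p w).ShortExact → (¬ ∃ s : V ⟶ U, s ≫ p = 𝟙 V) → Invertible V)
    [HasExt.{w'} D.FullSubcategory] :
    FGC.{w'} k D.FullSubcategory :=
  theoremP_ext hZ hnd hF D hD

end Pool.Agent.MUG.Kept.InvertibleExtensions
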