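import Pool.Agent.MUG.ThmQ

/-!
# MP_388894_al: centralizers of objects with invertible composition factors satisfy FGC
-/

open CategoryTheory MonoidalCategory Limits Abelian

universe w w' v u

namespace Pool.Agent.MUG.Kept.InvertibleFactors

open Pool.Agent.MUG

/-- Let `Z` be a braided finite tensor category over an algebraically closed field `k` of
characteristic zero, which satisfies FGC, and let `B` be a class of objects of `Z` all of whose
simple subquotients are invertible. Then the centralizer of `B` satisfies FGC. -/
theorem result {k : Type*} [Field k] [IsAlgClosed k] [CharZero k] {Z : Type u} [Category.{v} Z]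
    [Abelian Z] [Linear k Z] [MonoidalCategory Z] [MonoidalPreadditive Z] [MonoidalLinear k Z]
    [RigidCategory Z] [BraidedCategory Z] [HasExt.{w} Z] (hZ : IsFinite k Z)
    (hF : FGC.{w} k Z) (B : ObjectProperty Z)
    (hB : ∀ V, B V → ∀ S, Simple S → IsSubquotient S V → Invertible S)
    [HasExt.{w'} (centralizer B).FullSubcategory] :
    FGC.{w'} k (centralizer B).FullSubcategory :=
  theoremQ_fgc hZ hF B hB

end Pool.Agent.MUG.Kept.InvertibleFactors
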